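import Pool.Agent.helper75.S6D.Spec

/-!
# Row s6:CEL (MP_2b41e9): the criterion for a periodic code
-/

set_option autoImplicit false

open Polynomial Finset

noncomputable section

namespace Pool.Agent.S6D

open Pool.Agent.PSA

theorem CEL (hCE1 : CE1_stmt) : CEL_stmt := by
  intro Λ q1 q2 p1 p2 p3 T st hΛ hp1 hp2 hp3 hT h0 hTi hst n hn
  have hTpos : 0 < T := hT
  obtain ⟨st', hst'⟩ : ∃ st' : ℕ → St, ∀ m, st' m = st (m % T) := ⟨fun m => st (m % T), fun m => rfl⟩
  have hnext : ∀ m : ℕ, st' (m + 1) = st (m % T + 1) := by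
    intro m
    rw [hst']
    have hlt := Nat.mod_lt m hTpos
    by_cases h : m % T + 1 < T
    · have h1 : (m + 1) % T = m % T + 1 := by
        rw [← Nat.mod_add_mod, Nat.mod_eq_of_lt h]
      rw [h1]
    · have h1 : m % T + 1 = T := by omega
      have h2 : (m + 1) % T = 0 := by
        rw [← Nat.mod_add_mod, h1, Nat.mod_self]
      rw [h2, h1, h0, hTi]
  have hss : ∀ m : ℕ, ss q1 q2 st' (m + 1) = ss q1 q2 st (m % T + 1) := by
    intro m
    simp only [ss]
    rw [hnext, hst']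
  have hsh : ∀ m : ℕ, Shift st' m := by
    intro m
    have h1 := (hst (m % T) (Nat.mod_lt m hTpos)).1
    unfold Shift at h1 ⊢
    rw [hnext, hst']
    exact h1
  have hC := hCE1 Λ q1 q2 p1 p2 p3 st' hΛ hp1 hp2 hp3 (by rw [hst', Nat.zero_mod, h0])
    (fun m => ⟨hsh m, by rw [hss]; exact (hst (m % T) (Nat.mod_lt m hTpos)).2.1,
      by rw [hss]; exact (hst (m % T) (Nat.mod_lt m hTpos)).2.2⟩)
  -- the value at the end of the period
  have hend : ss q1 q2 st' T = 1 := by
    obtain ⟨t, rfl⟩ : ∃ t, T = t + 1 := ⟨T - 1, by omega⟩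
    have h1 := hst t (by omega)
    obtain ⟨h2, h3, h4⟩ := h1
    rw [hss t, Nat.mod_eq_of_lt (by omega)]
    unfold Shift at h2
    rw [hTi] at h2
    have h5 : ss q1 q2 st (t + 1) = 1 + ((st t).2.2.2 : ℝ) := by
      simp only [ss]
      rw [hTi]
      simp only [ini, Prod.mk.injEq] at h2
      obtain ⟨ha, hb, hc⟩ := h2
      unfold sv
      rw [← ha, ← hb, ← hc]
      simp [ini]
    rw [h5] at h3 h4 ⊢
    have h6 : (0 : ℝ) < 1 + ((st t).2.2.2 : ℝ) := lt_trans (inv_pos.mpr (by linarith)) h3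
    have h7 : (0 : ℤ) < 1 + (st t).2.2.2 := by exact_mod_cast h6
    have h8 : 1 + (st t).2.2.2 ≤ (1 : ℤ) := by exact_mod_cast h4
    have h9 : (st t).2.2.2 = 0 := by omega
    rw [h9]
    norm_num
  have hper : ∀ m : ℕ, ss q1 q2 st' (m + T) = ss q1 q2 st' m := by
    intro m
    rcases m with _ | m
    · rw [Nat.zero_add, hend]
      rfl
    · have h1 : m + 1 + T = (m + T) + 1 := by omega
      rw [h1, hss, hss, Nat.add_mod_right]
  obtain ⟨m, rfl⟩ : ∃ m, n = m + 1 := ⟨n - 1, by omega⟩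
  have h1 : m + 1 + T = (m + T) + 1 := by omega
  rw [h1, hC, hC, ← h1, hper, hper]

end Pool.Agent.S6D
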