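import Pool.Agent.helper75.S6D.Spec

/-!
# Row s6:UP6 (MP_2b41e9): upper bound for the number of the Salem numbers of degree 6
-/

set_option autoImplicit false

open Polynomial Finset

noncomputable section

namespace Pool.Agent.S6D

open Pool.Agent.PSA

theorem UP6 (hEXT : EXT_stmt) (hINJ : INJ_stmt) (hBDC : BDC_stmt) (hBCN : BCN_stmt)
    (hSUU : SUU_stmt) : UP6_stmt := by
  classical
  obtain ⟨C, hC, hU⟩ := UPB ALL_REC QQB 2 (by norm_num)
  obtain ⟨K₁, hK₁⟩ := hBCN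
  obtain ⟨K', hK'⟩ := hSUU K₁
  refine ⟨C * 1000 + 32 / 9 * 215 + 36 * |K'|, fun X hX => ?_⟩
  have hfin : (SS 6 X).Finite := (hU X hX).1
  refine ⟨hfin, ?_⟩
  obtain ⟨S, hS⟩ : ∃ S : Finset ℝ, (S : Set ℝ) = SS 6 X := ⟨hfin.toFinset, hfin.coe_toFinset⟩
  rw [← hS, Set.ncard_coe_finset]
  have hmem : ∀ β ∈ S, IsSalem β ∧ (minpoly ℤ β).natDegree = 6 ∧ β ≤ X := by
    intro β hβ
    have h1 : β ∈ (S : Set ℝ) := hβ
    rw [hS] at h1
    exact h1
  have hdat : ∀ β : ℝ, ∃ t : ℤ × ℤ × ℤ, β ∈ S → ∃ u v : ℝ, |u| ≤ 2 ∧ |v| ≤ 2 ∧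
      Rt t.1 t.2.1 t.2.2 u v (β + β⁻¹) ∧ minpoly ℤ β = P6 t.1 t.2.1 t.2.2 := by
    intro β
    by_cases hβ : β ∈ S
    · obtain ⟨A, b, c, u, v, h1, h2, h3, h4⟩ := hEXT β (hmem β hβ).1 (hmem β hβ).2.1
      exact ⟨(A, b, c), fun _ => ⟨u, v, h1, h2, h3, h4⟩⟩
    · exact ⟨(0, 0, 0), fun h => absurd h hβ⟩
  choose t ht using hdat
  -- the small ones
  have hsmall : ((S.filter (fun β => β ≤ 10)).card : ℝ) ≤ C * 1000 := by
    have hf10 := hU 10 (by norm_num)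
    have hsub : ((S.filter (fun β => β ≤ 10) : Finset ℝ) : Set ℝ) ⊆ SS 6 10 := by
      intro β hβ
      rw [Finset.mem_coe, Finset.mem_filter] at hβ
      exact ⟨(hmem β hβ.1).1, (hmem β hβ.1).2.1, hβ.2⟩
    have h1 := Set.ncard_le_ncard hsub hf10.1
    rw [Set.ncard_coe_finset] at h1
    have h2 : ((S.filter (fun β => β ≤ 10)).card : ℝ) ≤ ((SS 6 10).ncard : ℝ) := by
      exact_mod_cast h1
    have h3 : ((SS 6 10).ncard : ℝ) ≤ C * 10 ^ (2 + 1) := hf10.2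
    have h4 : C * (10 : ℝ) ^ (2 + 1) = C * 1000 := by norm_num
    linarith
  -- the large ones
  set M : ℕ := ⌊X⌋₊ + 5 with hM
  set S2 : Finset ℝ := S.filter (fun β => ¬ β ≤ 10) with hS2
  have hX0 : 0 ≤ X := by linarith
  have hfacts : ∀ β ∈ S2, (1 : ℤ) ≤ (t β).1 ∧ (t β).1 ≤ (M : ℤ) ∧ 2 ≤ β + β⁻¹ := by
    intro β hβ
    rw [hS2, Finset.mem_filter] at hβ
    obtain ⟨hβS, hβ10⟩ := hβ
    obtain ⟨u, v, hu, hv, hR, -⟩ := ht β hβS
    have hβX := (hmem β hβS).2.2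
    have h10 : 10 < β := by linarith [not_le.mp hβ10]
    have hinv0 : 0 < β⁻¹ := inv_pos.mpr (by linarith)
    have hinv1 : β⁻¹ < 1 := inv_lt_one_of_one_lt₀ (by linarith)
    have hA := hR.1
    have hu' := abs_le.mp hu
    have hv' := abs_le.mp hv
    refine ⟨?_, ?_, by linarith⟩
    · have : (0 : ℝ) < ((t β).1 : ℝ) := by linarith [hu'.1, hv'.1]
      have : (0 : ℤ) < (t β).1 := by exact_mod_cast this
      omega
    · have h1 : (((t β).1 - 5 : ℤ) : ℝ) ≤ X := by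
        push_cast
        linarith [hu'.2, hv'.2]
      have h2 : (t β).1 - 5 ≤ ⌊X⌋ := Int.le_floor.mpr h1
      have h3 : (⌊X⌋₊ : ℤ) = ⌊X⌋ := Int.natCast_floor_eq_floor hX0
      rw [hM]
      push_cast
      omega
  have hfib : ∀ n ∈ Finset.Icc 1 M, ((S2.filter (fun β => (t β).1.toNat = n)).card : ℝ) ≤
      32 / 3 * (n : ℝ) ^ 2 + K₁ * n := by
    intro n hn
    rw [Finset.mem_Icc] at hn
    have hAn : ∀ β ∈ S2.filter (fun β => (t β).1.toNat = n), β ∈ S ∧ (t β).1 = (n : ℤ) ∧ 2 ≤ β + β⁻¹ := by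
      intro β hβ
      rw [Finset.mem_filter] at hβ
      have h1 := hfacts β hβ.1
      have h2 : β ∈ S := (Finset.mem_filter.mp hβ.1).1
      refine ⟨h2, ?_, h1.2.2⟩
      have h3 : ((t β).1.toNat : ℤ) = (t β).1 := Int.toNat_of_nonneg (by omega)
      rw [← h3, hβ.2]
    have hinj : Set.InjOn (fun β => (t β).2) (S2.filter (fun β => (t β).1.toNat = n) : Finset ℝ) := by
      intro β hβ β' hβ' he
      obtain ⟨h1, h2, -⟩ := hAn β hβ
      obtain ⟨h1', h2', -⟩ := hAn β' hβ'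
      have he' : (t β).2 = (t β').2 := he
      obtain ⟨u, v, -, -, -, hP⟩ := ht β h1
      obtain ⟨u', v', -, -, -, hP'⟩ := ht β' h1'
      refine hINJ β β' (hmem β h1).1 (hmem β' h1').1 ?_
      rw [hP, hP', h2, h2', he']
    have hcard : ((S2.filter (fun β => (t β).1.toNat = n)).image (fun β => (t β).2)).card =
        (S2.filter (fun β => (t β).1.toNat = n)).card := Finset.card_image_of_injOn hinj
    rw [← hcard]
    refine hK₁ n hn.1 _ ?_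
    intro z hz
    rw [Finset.mem_image] at hz
    obtain ⟨β, hβ, rfl⟩ := hz
    obtain ⟨h1, h2, h3⟩ := hAn β hβ
    obtain ⟨u, v, hu, hv, hR, -⟩ := ht β h1
    have hB := hBDC (t β).1 (t β).2.1 (t β).2.2 u v (β + β⁻¹) hu hv h3 (by omega) hR
    rw [h2] at hB
    obtain ⟨b1, b2, b3, b4⟩ := hB
    refine ⟨b1, b2, b3, ?_⟩
    simpa using b4
  have hbig : (S2.card : ℝ) ≤ 32 / 9 * (M : ℝ) ^ 3 + K' * (M : ℝ) ^ 2 := by
    have h1 : S2.card = ∑ n ∈ Finset.Icc 1 M, (S2.filter (fun β => (t β).1.toNat = n)).card := by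
      refine Finset.card_eq_sum_card_fiberwise ?_
      intro β hβ
      have h2 := hfacts β hβ
      rw [Finset.mem_coe, Finset.mem_Icc]
      show 1 ≤ (t β).1.toNat ∧ (t β).1.toNat ≤ M
      constructor
      · omega
      · omega
    rw [h1]
    push_cast
    exact le_trans (Finset.sum_le_sum hfib) (hK' M)
  have hsplit : (S.card : ℝ) = ((S.filter (fun β => β ≤ 10)).card : ℝ) + (S2.card : ℝ) := by
    rw [← Finset.card_filter_add_card_filter_not (s := S) (fun β => β ≤ 10)]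
    push_cast
    rfl
  have hM1 : (M : ℝ) ≤ X + 5 := by
    rw [hM]
    push_cast
    linarith [Nat.floor_le hX0]
  have hM0 : (0 : ℝ) ≤ (M : ℝ) := Nat.cast_nonneg M
  have hM3 : (M : ℝ) ^ 3 ≤ X ^ 3 + 215 * X ^ 2 := by
    have h1 : (M : ℝ) ^ 3 ≤ (X + 5) ^ 3 := pow_le_pow_left₀ hM0 hM1 3
    nlinarith [sq_nonneg (X - 1), mul_nonneg hX0 (sub_nonneg.mpr hX)]
  have hM2 : (M : ℝ) ^ 2 ≤ 36 * X ^ 2 := by
    have h1 : (M : ℝ) ^ 2 ≤ (X + 5) ^ 2 := pow_le_pow_left₀ hM0 hM1 2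
    nlinarith [mul_nonneg hX0 (sub_nonneg.mpr hX)]
  have hX2 : 1 ≤ X ^ 2 := one_le_pow₀ hX
  have hK2 : K' * (M : ℝ) ^ 2 ≤ |K'| * (36 * X ^ 2) := by
    calc K' * (M : ℝ) ^ 2 ≤ |K'| * (M : ℝ) ^ 2 :=
          mul_le_mul_of_nonneg_right (le_abs_self _) (by positivity)
      _ ≤ |K'| * (36 * X ^ 2) := mul_le_mul_of_nonneg_left hM2 (abs_nonneg _)
  have hC1 : C * 1000 ≤ C * 1000 * X ^ 2 := le_mul_of_one_le_right (by positivity) hX2
  rw [hsplit]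
  nlinarith [hsmall, hbig, hM3, hK2, hC1]

end Pool.Agent.S6D
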